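import Pool.Agent.Q283.SP.Stm

/-!
# Project SP of helper283: lemma job NT (the cyclotomic character has infinite order on decomposition groups)
-/

set_option autoImplicit false

namespace Pool.Agent.Q262.SP

open Module IntermediateField

/-- automorphisms of a bigger field restrict to the field of the algebraic numbers -/
theorem restr {Ω A : Type} [Field Ω] [CharZero Ω] [IsAlgClosed Ω] [Algebra.IsAlgebraic ℚ Ω] [Field A] [CharZero A]
    (j : Ω →+* A) (τ : A ≃+* A) : ∃ σ : Ω ≃ₐ[ℚ] Ω, ∀ x, τ (j x) = j (σ x) := by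
  letI : Algebra Ω A := j.toAlgebra
  have : IsScalarTower ℚ Ω A := IsScalarTower.of_algebraMap_eq fun q => by simp
  have : IsAlgClosure ℚ Ω := ⟨inferInstance, inferInstance⟩
  have : Normal ℚ Ω := IsAlgClosure.normal ℚ Ω
  let τ' : A ≃ₐ[ℚ] A := { τ with commutes' := fun q => by simp }
  refine ⟨τ'.restrictNormal Ω, fun x => ?_⟩
  exact (AlgEquiv.restrictNormal_commutes τ' Ω x).symm

/-- the degree of a root of unity with few conjugates -/
theorem deg_le {p : ℕ} [Fact p.Prime] {E A : Type} [Field E] [Field A] [CharZero A] [IsAlgClosed A] [Algebra E A] [Algebra.IsAlgebraic E A]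
    (n r : ℕ) (hr : 1 ≤ r) (z : A)
    (h : ∀ g : A ≃ₐ[E] A, ∃ u : ℤ_[p], u ^ r = 1 ∧ g z = z ^ (PadicInt.toZModPow n u).val) :
    finrank E E⟮z⟯ ≤ r := by
  classical
  have : CharZero E := (algebraMap E A).charZero
  have : IsAlgClosure E A := ⟨inferInstance, inferInstance⟩
  have : Normal E A := IsAlgClosure.normal E A
  have hz : IsIntegral E z := Algebra.IsIntegral.isIntegral z
  rw [IntermediateField.adjoin.finrank hz]
  have hsep : (minpoly E z).Separable := (minpoly.irreducible hz).separable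
  have hcard : Fintype.card ((minpoly E z).rootSet A) = (minpoly E z).natDegree :=
    Polynomial.card_rootSet_eq_natDegree hsep (IsAlgClosed.splits _)
  rw [← hcard, ← Set.toFinset_card]
  have hsub : ((minpoly E z).rootSet A).toFinset ⊆
      (Polynomial.nthRoots r (1 : ℤ_[p])).toFinset.image fun u => z ^ (PadicInt.toZModPow n u).val := by
    intro w hw
    rw [Set.mem_toFinset] at hw
    have h1 : IsConjRoot E z w := (isConjRoot_iff_mem_minpoly_rootSet hz).2 hw
    obtain ⟨g, hg⟩ := h1.symm.exists_algEquiv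
    obtain ⟨u, hu, hgu⟩ := h g
    rw [Finset.mem_image]
    refine ⟨u, ?_, ?_⟩
    · rw [Multiset.mem_toFinset, Polynomial.mem_nthRoots hr]
      exact hu
    · rw [← hgu, hg]
  calc _ ≤ _ := Finset.card_le_card hsub
    _ ≤ _ := Finset.card_image_le
    _ ≤ _ := Multiset.toFinset_card_le _
    _ ≤ r := Polynomial.card_nthRoots r 1

section

variable {p l : ℕ} [Fact p.Prime] [Fact l.Prime]

theorem norm_one_of_pow (w : PadicAlgCl l) (k : ℕ) (h : w ^ p ^ k = 1) : ‖w‖ = 1 := by
  have h1 : ‖w‖ ^ p ^ k = 1 := by rw [← norm_pow, h, norm_one]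
  have hp : 0 < p := (Fact.out : p.Prime).pos
  exact (pow_eq_one_iff_of_nonneg (norm_nonneg w) (by positivity)).1 h1

omit [Fact p.Prime] in
theorem sum_norm_le (f : ℕ → PadicAlgCl l) (h : ∀ i, ‖f i‖ ≤ 1) (n : ℕ) :
    ‖∑ i ∈ Finset.range n, f i‖ ≤ 1 := by
  induction n with
  | zero => simp
  | succ n ih =>
    rw [Finset.sum_range_succ]
    exact (PadicAlgCl.isNonarchimedean l _ _).trans (max_le ih (h n))

theorem p_le (k : ℕ) : ∀ w : PadicAlgCl l, w ^ p ^ k = 1 → w ≠ 1 → ‖(p : PadicAlgCl l)‖ ≤ ‖w - 1‖ := by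
  induction k with
  | zero => intro w h hne; exact absurd (by simpa using h) hne
  | succ k ih =>
    intro w h hne
    have hw : ‖w‖ = 1 := norm_one_of_pow w (k + 1) h
    have hwi : ∀ i : ℕ, ‖w ^ i‖ ≤ 1 := fun i => by rw [norm_pow, hw, one_pow]
    by_cases h2 : w ^ p = 1
    · have h3 : ∑ i ∈ Finset.range p, w ^ i = 0 := by
        have h4 := mul_geom_sum w p
        rw [h2, sub_self] at h4
        exact (mul_eq_zero.1 h4).resolve_left (sub_ne_zero.2 hne)
      have h5 : (p : PadicAlgCl l) = (w - 1) * ∑ i ∈ Finset.range p, -∑ j ∈ Finset.range i, w ^ j := by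
        rw [Finset.mul_sum]
        have h6 : ∀ i ∈ Finset.range p, (w - 1) * -∑ j ∈ Finset.range i, w ^ j = 1 - w ^ i := by
          intro i _
          rw [mul_neg, mul_geom_sum]
          ring
        rw [Finset.sum_congr rfl h6, Finset.sum_sub_distrib, h3, sub_zero, Finset.sum_const, Finset.card_range,
          nsmul_eq_mul, mul_one]
      rw [h5, norm_mul]
      refine mul_le_of_le_one_right (norm_nonneg _) (sum_norm_le _ (fun i => ?_) p)
      rw [norm_neg]
      exact sum_norm_le _ hwi i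
    · have h3 := ih (w ^ p) (by rw [← pow_mul, ← pow_succ']; exact h) h2
      calc _ ≤ ‖w ^ p - 1‖ := h3
        _ = ‖w - 1‖ * ‖∑ i ∈ Finset.range p, w ^ i‖ := by rw [← norm_mul, mul_geom_sum]
        _ ≤ ‖w - 1‖ * 1 := mul_le_mul_of_nonneg_left (sum_norm_le _ hwi p) (norm_nonneg _)
        _ = _ := mul_one _

/-- a finite-dimensional subspace contains only finitely many roots of unity of `p`-power order -/
theorem noroots (M : Submodule ℚ_[l] (PadicAlgCl l)) (hM : FiniteDimensional ℚ_[l] M) (z : ℕ → PadicAlgCl l)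
    (hz : ∀ n, IsPrimitiveRoot (z n) (p ^ n)) (hzM : ∀ n, z n ∈ M) : False := by
  have : ProperSpace M := FiniteDimensional.proper ℚ_[l] M
  have hcomp : IsCompact (Metric.closedBall (0 : M) 1) := isCompact_closedBall 0 1
  have hmem : ∀ n, (⟨z n, hzM n⟩ : M) ∈ Metric.closedBall (0 : M) 1 := by
    intro n
    rw [mem_closedBall_zero_iff]
    change ‖z n‖ ≤ 1
    exact (norm_one_of_pow (z n) n (hz n).pow_eq_one).le
  obtain ⟨a, -, φ, hφ, hlim⟩ := hcomp.tendsto_subseq hmem
  have hcau := hlim.cauchySeq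
  rw [Metric.cauchySeq_iff] at hcau
  have hp := (Fact.out : p.Prime).two_le
  have hp0 : 0 < p := by omega
  have h2 : 0 < ‖(p : PadicAlgCl l)‖ := norm_pos_iff.2 (by exact_mod_cast hp0.ne')
  obtain ⟨N, hN⟩ := hcau _ h2
  have h3 := hN N le_rfl (N + 1) (Nat.le_succ N)
  have hne : φ N ≠ φ (N + 1) := (hφ (Nat.lt_succ_self N)).ne
  have hz0 : z (φ (N + 1)) ≠ 0 := (hz _).ne_zero (by positivity)
  have h4 : ‖z (φ N) - z (φ (N + 1))‖ < ‖(p : PadicAlgCl l)‖ := by
    have h5 : dist (⟨z (φ N), hzM (φ N)⟩ : M) ⟨z (φ (N + 1)), hzM (φ (N + 1))⟩ < ‖(p : PadicAlgCl l)‖ := h3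
    rw [Subtype.dist_eq, dist_eq_norm] at h5
    exact h5
  have hw1 : (z (φ N) / z (φ (N + 1))) ^ p ^ (φ N + φ (N + 1)) = 1 := by
    rw [div_pow, pow_add p, pow_mul, (hz (φ N)).pow_eq_one, one_pow, mul_comm, pow_mul, (hz (φ (N + 1))).pow_eq_one,
      one_pow, div_one]
  have hwne : z (φ N) / z (φ (N + 1)) ≠ 1 := by
    intro h5
    rw [div_eq_one_iff_eq hz0] at h5
    have h6 : p ^ φ N = p ^ φ (N + 1) := (hz (φ N)).unique (h5 ▸ hz (φ (N + 1)))
    exact hne (Nat.pow_right_injective hp h6)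
  have h5 := p_le _ _ hw1 hwne
  have h6 : ‖z (φ N) / z (φ (N + 1)) - 1‖ = ‖z (φ N) - z (φ (N + 1))‖ := by
    rw [div_sub_one hz0, norm_div, norm_one_of_pow _ _ (hz (φ (N + 1))).pow_eq_one, div_one]
  rw [h6] at h5
  exact absurd h4 (not_lt.2 h5)

end

theorem nt : Pool.Agent.Q283.SP.S_NT := by
  intro p _ Ω _ _ _ _ K _ l _ j r hr
  have hp2 := (Fact.out : p.Prime).two_le
  have hp0 : 0 < p := by omega
  by_contra hcon
  push Not at hcon
  -- generator
  obtain ⟨θ, hθ⟩ := Field.exists_primitive_element ℚ K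
  let E : IntermediateField ℚ_[l] (PadicAlgCl l) := ℚ_[l]⟮j (θ : Ω)⟯
  have hEfin : FiniteDimensional ℚ_[l] E :=
    IntermediateField.adjoin.finiteDimensional (Algebra.IsIntegral.isIntegral (j (θ : Ω)))
  -- roots of unity in Ω
  have hω : ∀ n : ℕ, ∃ ω : Ω, IsPrimitiveRoot ω (p ^ n) := fun n => by
    have : NeZero ((p ^ n : ℕ) : Ω) := ⟨by exact_mod_cast (by positivity : (p ^ n : ℕ) ≠ 0)⟩
    exact HasEnoughRootsOfUnity.exists_primitiveRoot Ω (p ^ n)
  choose ω hω using hω
  have hz : ∀ n, IsPrimitiveRoot (j (ω n)) (p ^ n) := fun n => (hω n).map_of_injective j.injective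
  have hdeg : ∀ n, finrank E E⟮j (ω n)⟯ ≤ r := by
    intro n
    apply deg_le (p := p) n r hr
    intro g
    obtain ⟨σ, hσ⟩ := restr j g.toRingEquiv
    have hDec : Pool.Agent.Q283.LS.Dec j σ := ⟨g.restrictScalars ℚ_[l], fun x => hσ x⟩
    have hσθ : σ (θ : Ω) = (θ : Ω) := by
      apply j.injective
      rw [← hσ]
      exact g.commutes (⟨j (θ : Ω), IntermediateField.mem_adjoin_simple_self _ _⟩ : E)
    have hfix : σ ∈ K.fixingSubgroup := by
      rw [IntermediateField.mem_fixingSubgroup_iff]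
      intro x hx
      have hx2 : (⟨x, hx⟩ : K) ∈ (ℚ⟮θ⟯ : IntermediateField ℚ K) := by
        rw [hθ]; exact IntermediateField.mem_top
      have key : ∀ y ∈ (ℚ⟮θ⟯ : IntermediateField ℚ K), σ (y : Ω) = (y : Ω) := by
        intro y hy
        induction hy using IntermediateField.adjoin_induction with
        | mem a ha => rw [Set.mem_singleton_iff] at ha; rw [ha]; exact hσθ
        | algebraMap q => simp
        | add a b _ _ ha hb => simp only [IntermediateField.coe_add, map_add, ha, hb]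
        | inv a _ ha => simp only [IntermediateField.coe_inv, map_inv₀, ha]
        | mul a b _ _ ha hb => simp only [IntermediateField.coe_mul, map_mul, ha, hb]
      exact key _ hx2
    refine ⟨Pool.Agent.Q283.SP.chi p σ, hcon σ hfix hDec, ?_⟩
    have h1 : g (j (ω n)) = j (σ (ω n)) := hσ (ω n)
    rw [h1, ← map_pow]
    congr 1
    exact cyclotomicCharacter.spec p (σ : Ω ≃+* Ω) (ω n) (hω n).pow_eq_one
  have hmono : ∀ m n, m ≤ n → E⟮j (ω m)⟯ ≤ E⟮j (ω n)⟯ := by
    intro m n hmn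
    rw [IntermediateField.adjoin_simple_le_iff]
    obtain ⟨k, rfl⟩ := Nat.exists_eq_add_of_le hmn
    have h1 : j (ω m) ^ p ^ (m + k) = 1 := by
      rw [pow_add, pow_mul, (hz m).pow_eq_one, one_pow]
    obtain ⟨i, -, hi⟩ := (hz (m + k)).eq_pow_of_pow_eq_one h1
    rw [← hi]
    exact pow_mem (IntermediateField.mem_adjoin_simple_self _ _) i
  have hbdd : ∃ N, ∀ n, finrank E E⟮j (ω n)⟯ ≤ finrank E E⟮j (ω N)⟯ := by
    have hB : BddAbove (Set.range fun n => finrank E E⟮j (ω n)⟯) := ⟨r, by rintro _ ⟨n, rfl⟩; exact hdeg n⟩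
    obtain ⟨N, hN⟩ := Nat.sSup_mem (Set.range_nonempty _) hB
    refine ⟨N, fun n => ?_⟩
    have h1 := le_csSup hB (Set.mem_range_self n)
    rw [← hN] at h1
    exact h1
  obtain ⟨N, hN⟩ := hbdd
  have hfd : ∀ n, FiniteDimensional E E⟮j (ω n)⟯ := fun n =>
    IntermediateField.adjoin.finiteDimensional (Algebra.IsIntegral.isIntegral (j (ω n)))
  have hall : ∀ n, j (ω n) ∈ E⟮j (ω N)⟯ := by
    intro n
    have := hfd (max n N)
    have h1 : E⟮j (ω N)⟯ = E⟮j (ω (max n N))⟯ :=
      IntermediateField.eq_of_le_of_finrank_le (hmono N _ (le_max_right n N)) (hN _)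
    rw [h1]
    exact hmono n _ (le_max_left n N) (IntermediateField.mem_adjoin_simple_self _ _)
  have := hfd N
  have hfin : FiniteDimensional ℚ_[l] E⟮j (ω N)⟯ := FiniteDimensional.trans ℚ_[l] E E⟮j (ω N)⟯
  exact noroots (Subalgebra.toSubmodule (E⟮j (ω N)⟯.restrictScalars ℚ_[l]).toSubalgebra) hfin
    (fun n => j (ω n)) hz hall

end Pool.Agent.Q262.SP
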